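import Mathlib
import Pool.Agent.Helper523.UF.Basic

set_option autoImplicit false

/-!
Statements of the lemmas used in the construction of ultraflat skew-reciprocal Littlewood
polynomials. Here `e x = exp (2 π i x)` is `Pool.Agent.Helper523.UF.e`.
-/

namespace Pool.Agent.H632Z.UFL

open Pool.Agent.Helper523.UF Finset Filter

/-! ### Discrepancy part -/

/-- partial colouring lemma -/
def PartialStmt : Prop :=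
  ∃ C : ℝ, 0 < C ∧ ∀ (I J : Type) [Fintype I] [DecidableEq J] (a : I → J → ℝ) (S : Finset J),
    (∀ i j, |a i j| ≤ 1) → 100 ≤ S.card → S.card ≤ Fintype.card I →
    ∃ χ : J → ℝ, (∀ j, χ j = 0 ∨ χ j = 1 ∨ χ j = -1) ∧
      4 * (S.filter (fun j => χ j = 0)).card ≤ 3 * S.card ∧
      ∀ i, |∑ j ∈ S, a i j * χ j| ≤
        C * (Fintype.card I : ℝ) ^ (3 / 8 : ℝ) * (S.card : ℝ) ^ (1 / 8 : ℝ)

/-- Spencer type full colouring -/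
def SpencerStmt : Prop :=
  ∃ C : ℝ, 0 < C ∧ ∀ (I J : Type) [Fintype I] [DecidableEq J] (a : I → J → ℝ) (S : Finset J),
    (∀ i j, |a i j| ≤ 1) → S.card ≤ Fintype.card I →
    ∃ χ : J → ℝ, (∀ j, χ j = 1 ∨ χ j = -1) ∧
      ∀ i, |∑ j ∈ S, a i j * χ j| ≤
        C * (Fintype.card I : ℝ) ^ (3 / 8 : ℝ) * (S.card : ℝ) ^ (1 / 8 : ℝ)

/-- rounding a nearly `±1` vector -/
def DiscStmt : Prop :=
  ∃ C : ℝ, 0 < C ∧ ∀ (I J : Type) [Fintype I] [Fintype J] (a : I → J → ℝ) (x : J → ℝ) (Φ : ℝ),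
    (∀ i j, |a i j| ≤ 1) → (∀ j, |x j| ≤ 1) → Fintype.card J ≤ Fintype.card I → 0 < Φ →
    ∑ j, (1 - x j ^ 2) ≤ Φ →
    ∃ z : J → ℝ, (∀ j, z j = 1 ∨ z j = -1) ∧
      ∀ i, |∑ j, a i j * (z j - x j)| ≤
        C * (Fintype.card I : ℝ) ^ (3 / 8 : ℝ) * Φ ^ (1 / 8 : ℝ)

/-- the sup norm of a trigonometric polynomial is controlled on a grid -/
def SampleStmt : Prop :=
  ∀ (n : ℕ) (c : ℕ → ℂ) (R : ℝ),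
    (∀ i : ℕ, i < 4 * (n + 1) →
      ‖∑ j ∈ range (n + 1), c j * e (j * ((i : ℝ) / (4 * ((n : ℝ) + 1))))‖ ≤ R) →
    ∀ θ : ℝ, ‖∑ j ∈ range (n + 1), c j * e (j * θ)‖ ≤ 2 * R

/-- skew symmetry of a coefficient sequence -/
def Skew (n : ℕ) (b : ℕ → ℝ) : Prop := ∀ j : ℕ, j ≤ n → b (n - j) = (-1) ^ j * b j

/-- rounding of skew coefficient sequences -/
def TrigRoundStmt : Prop :=
  ∀ ε : ℝ, 0 < ε → ∃ δ : ℝ, 0 < δ ∧ ∀ (n : ℕ) (b : ℕ → ℝ), 4 ∣ n → Skew n b →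
    (∀ j, j ≤ n → |b j| ≤ 1) → ∑ j ∈ range (n + 1), (1 - b j ^ 2) ≤ δ * ((n : ℝ) + 1) →
    ∃ a : ℕ → ℝ, Skew n a ∧ (∀ j, j ≤ n → a j = 1 ∨ a j = -1) ∧
      ∀ θ : ℝ, ‖∑ j ∈ range (n + 1), ((a j - b j : ℝ) : ℂ) * e (j * θ)‖ ≤
        ε * Real.sqrt ((n : ℝ) + 1)

/-! ### A nearly `±1` valued trigonometric polynomial with non-proportional frequencies -/

def G1Stmt : Prop :=
  ∀ ε : ℝ, 0 < ε → ∃ (d : ℕ) (S : Finset (Fin d → ℤ)) (c : (Fin d → ℤ) → ℂ),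
    (∀ k ∈ S, k ≠ 0) ∧
    (∀ k ∈ S, ∀ k' ∈ S, (∀ i j, k i * k' j = k j * k' i) → k = k') ∧
    (∀ y : Fin d → ℝ, |2 * (∑ k ∈ S, c k * e (∑ i, (k i : ℝ) * y i)).re| ≤ 1) ∧
    1 - ε ≤ 2 * ∑ k ∈ S, ‖c k‖ ^ 2

/-- the arithmetic data of the frequencies -/
def Dat {s : ℕ} (m : Fin s → ℕ) (A : Fin s → Fin s → ℤ) : Prop :=
  (∀ k, 0 < m k) ∧ Function.Injective m ∧ (∀ k, A k k = 0) ∧ ∀ k k', k ≠ k' → A k k' ≠ 0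

def GStmt : Prop :=
  ∀ ε : ℝ, 0 < ε → ∃ (s : ℕ) (c : Fin s → ℂ) (m : Fin s → ℕ) (A : Fin s → Fin s → ℤ),
    Dat m A ∧ (∀ k, c k ≠ 0) ∧
    (∀ (x₀ : ℝ) (x : Fin s → ℝ),
      |2 * (∑ k, c k * e ((m k : ℝ) * x₀ + ∑ k', (A k k' : ℝ) * x k')).re| ≤ 1) ∧
    1 - ε ≤ 2 * ∑ k, ‖c k‖ ^ 2

/-! ### Arithmetic lemmas -/

def CoprimeStmt : Prop :=
  ∀ (s : ℕ) (F : Fin s → ℝ) (δ : ℝ) (P T₀ : ℕ), (∀ k, 0 < F k) → 0 < δ → 0 < P →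
    ∃ (T : ℕ) (q : Fin s → ℕ), T₀ ≤ T ∧ 0 < T ∧ (∀ k k', k ≠ k' → Nat.Coprime (q k) (q k')) ∧
      ∀ k, 0 < q k ∧ Nat.Coprime (q k) P ∧ (T : ℝ) * F k ≤ q k ∧ (q k : ℝ) ≤ (1 + δ) * (T * F k)

def GaussStmt : Prop :=
  ∀ (N : ℕ) (a : ℤ), 0 < N → IsCoprime (2 * a) (N : ℤ) → ∃ ψ : ℕ → ℝ, ∀ j : ℤ,
    e ((a : ℝ) * (j : ℝ) ^ 2 / N) =
      ∑ r ∈ range N, ((1 / Real.sqrt N : ℝ) : ℂ) * e (ψ r - (j : ℝ) * r / N)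

/-- the linear forms -/
def Lf {s : ℕ} (m : Fin s → ℕ) (A : Fin s → Fin s → ℤ) (b₀ : ℤ) (b : Fin s → ℤ) (k : Fin s) : ℤ :=
  (m k : ℤ) * b₀ + ∑ k', A k k' * b k'

def LabelStmt : Prop :=
  ∀ (s : ℕ) (m : Fin s → ℕ) (A : Fin s → Fin s → ℤ) (p : Fin s → ℝ) (δ : ℝ),
    Dat m A → (∀ k, 0 < p k) → 2 * ∑ k, p k ≤ 1 → 0 < δ →
    ∃ (M : ℕ) (lab : ℤ → Option (Fin s × Bool)) (Z : ℝ), 0 < M ∧ 0 < Z ∧
      (∀ x y : ℤ, x ≡ y [ZMOD M] → lab x = lab y) ∧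
      (∀ (x : ℤ) (k : Fin s), lab x = some (k, false) → lab (-x - 1) = some (k, true)) ∧
      ∀ f : Fin s → ℤ, ∃ (W : ℕ) (b₀ : Fin W → ℤ) (b : Fin W → Fin s → ℤ),
        (1 - δ) * Z ≤ W ∧ (W : ℝ) ≤ Z ∧
        (∀ w k, lab (Lf m A (b₀ w) (b w) k + f k) = some (k, false)) ∧
        ∀ (k : Fin s) (x : ℤ),
          ((univ.filter (fun w => Lf m A (b₀ w) (b w) k + f k ≡ x [ZMOD M])).card : ℝ) *
            (M * p k) ≤ (1 + δ) * Z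

def BaseStmt : Prop :=
  ∀ (s : ℕ) (m : Fin s → ℕ) (A : Fin s → Fin s → ℤ) (p : Fin s → ℝ) (δ : ℝ),
    Dat m A → (∀ k, 0 < p k) → 2 * ∑ k, p k ≤ 1 → 0 < δ →
    ∃ (M : ℕ) (lab : ℤ → Option (Fin s × Bool)) (Z : ℝ) (W : ℕ) (b₀ : Fin W → ℤ)
      (b : Fin W → Fin s → ℤ), 0 < M ∧ Even M ∧ 0 < Z ∧
      (∀ x y : ℤ, x ≡ y [ZMOD M] → lab x = lab y) ∧
      (1 - δ) * Z ≤ W ∧ (W : ℝ) ≤ Z ∧
      (∀ w k (u : ℕ), u < m k → lab (Lf m A (b₀ w) (b w) k + u) = some (k, false) ∧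
        lab (-(Lf m A (b₀ w) (b w) k + u) - 1) = some (k, true)) ∧
      (∀ w w' k (u u' : ℕ), u < m k → u' < m k →
        Lf m A (b₀ w) (b w) k + u ≡ Lf m A (b₀ w') (b w') k + u' [ZMOD M] → u = u') ∧
      ∀ (k : Fin s) (x : ℤ),
        ((univ.filter (fun w => Lf m A (b₀ w) (b w) k ≡ x [ZMOD M])).card : ℝ) *
          (M * p k) ≤ (1 + δ) * Z * m k

/-! ### Schemes of tiles -/

/-- cell number `u` of the tile starting at `lo`, or its mirror image -/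
def cell (lo : ℤ) (u : ℕ) (b : Bool) : ℤ := if b then -(lo + u) - 1 else lo + u

/-- the tiles and their mirror images are pairwise disjoint modulo `N` -/
def Packing {ι : Type} (N : ℕ) (lo : ι → ℤ) (len : ι → ℕ) : Prop :=
  ∀ (l l' : ι) (u u' : ℕ) (b b' : Bool), u < len l → u' < len l' →
    cell (lo l) u b ≡ cell (lo l') u' b' [ZMOD N] → l = l' ∧ u = u' ∧ b = b'

/-- the signal of each time segment is bounded by `A` -/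
def Adm {ι Ω : Type} [Fintype ι] [DecidableEq Ω] (seg : ι → Ω) (N : ℕ) (lo : ι → ℤ)
    (len : ι → ℕ) (τ : Ω → ℝ) (φ : ι → ℝ) (A : ℝ) : Prop :=
  ∀ (ω : Ω) (j : ℤ) (L : ℝ),
    |2 * (∑ l ∈ univ.filter (fun l => seg l = ω),
      ((Real.sqrt ((len l : ℝ) / (2 * N * τ ω)) : ℝ) : ℂ) *
        e (φ l - (j : ℝ) * lo l / (2 * N) + L * len l)).re| ≤ A

def PackStmt : Prop :=
  ∀ ε : ℝ, 0 < ε → ∃ (ι Ω : Type) (_ : Fintype ι) (_ : Fintype Ω) (_ : DecidableEq Ω)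
    (seg : ι → Ω) (N : ℕ) (lo : ι → ℤ) (len : ι → ℕ) (τ : Ω → ℝ) (φ : ι → ℝ) (η : ℝ),
    0 < N ∧ Even N ∧ (∀ l, 0 < len l) ∧ (∀ ω, 0 < τ ω) ∧ Packing N lo len ∧
    (1 - η) * N ≤ 2 * ∑ l, (len l : ℝ) ∧ ∑ ω, τ ω + η < 1 / 2 ∧
    Adm seg N lo len τ φ (1 + ε)

def TilingStmt : Prop :=
  ∀ ε : ℝ, 0 < ε → ∃ (ι Ω : Type) (_ : Fintype ι) (_ : Fintype Ω) (_ : DecidableEq Ω)
    (seg : ι → Ω) (N : ℕ) (lo : ι → ℤ) (len : ι → ℕ) (τ : Ω → ℝ) (φ : ι → ℝ),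
    0 < N ∧ (∀ l, 0 < len l) ∧ (∀ ω, 0 < τ ω) ∧ Packing N lo len ∧
    2 * ∑ l, len l = N ∧ ∑ ω, τ ω < 1 / 2 ∧ Adm seg N lo len τ φ (1 + ε)

/-! ### Analytic part -/

/-- stationary phase with the value of the main term -/
def StatStmt : Prop :=
  ∀ (a b r μ X t₀ : ℝ) (A y y' : ℝ → ℝ), 0 < r → 0 < μ → 0 ≤ X → a + r ≤ t₀ → t₀ + r ≤ b →
    (∀ x ∈ Set.Icc a b, HasDerivAt A (y x) x) → (∀ x ∈ Set.Icc a b, HasDerivAt y (y' x) x) →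
    ContinuousOn y' (Set.Icc a b) → (∀ x ∈ Set.Icc a b, μ ≤ y' x) →
    (∀ x ∈ Set.Icc (t₀ - r) (t₀ + r), |y' x - y' t₀| ≤ X * r) → y t₀ = 0 →
    ‖(∫ x in a..b, e (A x)) - e (A t₀) * ∫ v in (-r)..r, e (y' t₀ * v ^ 2 / 2)‖ ≤
      2 / (μ * r) + 13 * X * r ^ 4

/-- the frequency profile of one tile -/
def TileStmt : Prop :=
  ∀ ε ζ V s τ : ℝ, 0 < ε → 0 < ζ → 0 < V → 0 < s → 0 < τ →
    ∃ w Lv : ℕ → ℝ → ℝ, (∀ n l, 0 ≤ w n l ∧ w n l ≤ 1) ∧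
      (∀ (n : ℕ) (l : ℝ), w n l ≠ 0 → s * n < l ∧ l < (s + τ * (1 + ζ)) * n) ∧
      ∀ lam φ : ℝ, 0 < lam → lam ≤ V → lam ≤ V * τ → ∃ C : ℝ, ∀ᶠ n : ℕ in atTop,
        ∃ y : ℝ → ℝ, (∀ u u', |y u - y u'| ≤ C * n * |u - u'|) ∧
          (∀ u, u ≤ 0 ∨ 1 ≤ u → y u = 0) ∧
          (∀ u, |y u| ≤ (s + τ * (1 + ζ) + ζ) * n) ∧
          (∃ z : ℤ, lam * ∫ u in (0 : ℝ)..1, y u = z) ∧
          ∀ l : ℝ, ‖((Real.sqrt n * lam : ℝ) : ℂ) *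
              (∫ u in (0 : ℝ)..1, e (lam * (∫ v in (0 : ℝ)..u, y v) - lam * l * u)) -
            ((Real.sqrt (lam / τ) * w n l : ℝ) : ℂ) * e (φ + lam * Lv n l)‖ ≤ ε

/-- gluing tile profiles to a unimodular function with the two symmetries -/
def GlueStmt : Prop :=
  ∀ (ι : Type) [Fintype ι] (N : ℕ) (lo : ι → ℤ) (len : ι → ℕ) (y : ι → ℝ → ℝ) (Λ B : ℝ),
    0 < N → (∀ l, 0 < len l) → Packing N lo len → 2 * ∑ l, len l = N → 0 ≤ Λ → 0 ≤ B →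
    (∀ l u u', |y l u - y l u'| ≤ Λ * |u - u'|) → (∀ l u, u ≤ 0 ∨ 1 ≤ u → y l u = 0) →
    (∀ l u, |y l u| ≤ B) →
    (∀ l, ∃ z : ℤ, (len l : ℝ) / (2 * N) * ∫ u in (0 : ℝ)..1, y l u = z) →
    ∃ Y α : ℝ → ℝ, (∀ x, HasDerivAt α (Y x) x) ∧
      (∀ x x', |Y x - Y x'| ≤ 8 * N * Fintype.card ι * Λ * |x - x'|) ∧ (∀ x, |Y x| ≤ B) ∧
      (∀ x, e (α (x + 1)) = e (α x)) ∧
      ∃ J : ℤ → ℂ, (∀ j : ℤ, J j = ∑ l, (((len l : ℝ) / (2 * N) : ℝ) : ℂ) *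
          e (-((j : ℝ) * lo l / (2 * N))) *
          ∫ u in (0 : ℝ)..1, e ((len l : ℝ) / (2 * N) * (∫ v in (0 : ℝ)..u, y l v) -
            (len l : ℝ) / (2 * N) * j * u)) ∧
        ∀ j : ℤ, ∫ t in (0 : ℝ)..1, e (α t) * e (-((j : ℝ) * t)) =
          ((2 * (J j).re + (-1) ^ j.natAbs * (2 * (J (-j)).re) : ℝ) : ℂ)

def AnalyticStmt : Prop :=
  ∀ (ι Ω : Type) [Fintype ι] [Fintype Ω] [DecidableEq Ω]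
    (seg : ι → Ω) (N : ℕ) (lo : ι → ℤ) (len : ι → ℕ) (τ : Ω → ℝ) (φ : ι → ℝ) (A ε : ℝ),
    0 < N → (∀ l, 0 < len l) → (∀ ω, 0 < τ ω) → Packing N lo len →
    2 * ∑ l, len l = N → ∑ ω, τ ω < 1 / 2 → Adm seg N lo len τ φ A → 0 ≤ A → 0 < ε →
    ∀ᶠ n : ℕ in atTop, 4 ∣ n → ∃ b : ℕ → ℝ, Skew n b ∧ (∀ j, j ≤ n → |b j| ≤ A + ε) ∧
      ∀ θ : ℝ, |‖∑ j ∈ range (n + 1), (b j : ℂ) * e (j * θ)‖ - Real.sqrt n| ≤ ε * Real.sqrt n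

/-- ultraflat skew Littlewood polynomials of all large degrees divisible by four -/
def MainStmt : Prop :=
  ∀ ε : ℝ, 0 < ε → ∀ᶠ n : ℕ in atTop, 4 ∣ n → ∃ a : ℕ → ℝ, Skew n a ∧
    (∀ j, j ≤ n → a j = 1 ∨ a j = -1) ∧
    ∀ θ : ℝ, |‖∑ j ∈ range (n + 1), (a j : ℂ) * e (j * θ)‖ - Real.sqrt ((n : ℝ) + 1)| ≤
      ε * Real.sqrt ((n : ℝ) + 1)

end Pool.Agent.H632Z.UFL
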